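import Pool.Agent.Y714.KE.Stm
import Pool.Agent.Y714.KE.BasB

set_option autoImplicit false
set_option linter.unusedSectionVars false

/-! KE-HB and KE-DESC: heights are bounded below, descent (etale algebras). -/

namespace Pool.Agent.Y681.KE

open Pool.Agent.Y714.KE
open Pool.Agent.Y714.KF (FI sp ct nm pm ext br gl)
open NumberField FractionalIdeal Module Finset
open scoped nonZeroDivisors

theorem exists_min {ι : Type} (R : Finset ι) (f : ι → ℝ) (h : ∀ r, 0 < f r) :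
    ∃ c : ℝ, 0 < c ∧ ∀ r ∈ R, c ≤ f r := by
  classical
  induction R using Finset.induction_on with
  | empty => exact ⟨1, one_pos, by simp⟩
  | insert a s ha ih =>
    obtain ⟨c, hc, hc'⟩ := ih
    refine ⟨min c (f a), lt_min hc (h a), fun r hr => ?_⟩
    rcases Finset.mem_insert.1 hr with rfl | hr
    · exact min_le_right _ _
    · exact (min_le_left _ _).trans (hc' r hr)

variable {s : Type} [Fintype s] [DecidableEq s] {K : s → Type} [∀ i, Field (K i)]
  [∀ i, NumberField (K i)]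

theorem hb (h1 : S_CLS K) (h2 : S_IDX K) : S_HB K := by
  classical
  intro hodd hn
  obtain ⟨R, hR, -⟩ := h1
  have hcard : Fintype.card (Em K) = dg K := card_Em
  obtain ⟨C, hC, hineq⟩ := Pool.Agent.Y714.KF.ineqs (J := Em K) (by rw [hcard]; exact hodd)
  have h1 : ∀ r : FU K, ∃ c : ℝ, 0 < c ∧ ∀ P : Al K × Al K, (∀ i, cn P i ≤ r i) → ND P →
      c ≤ pm (vc P) := by
    intro r
    obtain ⟨c, hc, hD⟩ := h2 r
    refine ⟨min 1 (c ^ 2 / C), lt_min one_pos (div_pos (pow_pos hc 2) hC), fun P hP hNd => ?_⟩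
    obtain ⟨D, hD0, hprod, -⟩ := hD P hP hNd
    have hpm := hNd.pm_pos (by omega)
    have h2 := (hineq (vc P) hpm).2.2.2
    rw [hprod, hcard] at h2
    have h3 : c ^ 2 ≤ (c * D) ^ 2 := by
      have hD1 : (1 : ℝ) ≤ D := by exact_mod_cast Nat.one_le_iff_ne_zero.2 hD0
      have : c ≤ c * D := by nlinarith
      exact pow_le_pow_left₀ hc.le this 2
    have h4 : c ^ 2 / C ≤ pm (vc P) ^ (dg K - 1) := by
      rw [div_le_iff₀ hC]
      linarith
    rcases le_total 1 (pm (vc P)) with h5 | h5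
    · exact (min_le_left _ _).trans h5
    · refine (min_le_right _ _).trans (h4.trans ?_)
      exact pow_le_of_le_one hpm.le h5 (by omega)
  choose c hc hcP using h1
  have hnr : ∀ r : FU K, 0 < ((nA (cf r) : ℚ) : ℝ) := by
    intro r
    exact_mod_cast nA_pos (J := cf r) fun i => (r i).ne_zero
  obtain ⟨c0, hc0, hle⟩ := exists_min R (fun r => c r / ((nA (cf r) : ℚ) : ℝ) ^ 2)
    (fun r => div_pos (hc r) (pow_pos (hnr r) 2))
  refine ⟨c0, hc0, fun P hP => ?_⟩
  have hct : ∀ i, cn P i ≠ 0 := cn_ne (hP.ne (by omega))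
  obtain ⟨r, hr, x, hx⟩ := hR fun i => Units.mk0 (cn P i) (hct i)
  have hx0 : ∀ i, x i ≠ 0 := fun i => (hx i).1
  have hrx : ∀ i, cn P i = sp (x i) * (r i : FI (K i)) := fun i => (hx i).2
  obtain ⟨z, hz⟩ : ∃ z : Al K, z = fun i => (x i)⁻¹ := ⟨_, rfl⟩
  have hz0 : ∀ i, z i ≠ 0 := fun i => by rw [hz]; exact inv_ne_zero (hx0 i)
  have hxz : x * z = 1 := by
    funext i
    rw [hz]
    exact mul_inv_cancel₀ (hx0 i)
  have hP' : P = sm x (sm z P) := by
    rw [sm_sm, hxz]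
    refine Prod.ext ?_ ?_
    · exact (one_mul P.1).symm
    · exact (one_mul P.2).symm
  have hct' : cn (sm z P) = cf r := by
    rw [cn_sm]
    funext i
    rw [hrx, ← mul_assoc, ← Pool.Agent.Y714.KF.sp_mul, hz, inv_mul_cancel₀ (hx0 i)]
    have : sp (1 : K i) = 1 := by
      rw [sp, spanSingleton_one]
    rw [this, one_mul]
    rfl
  have h5 := hcP r (sm z P) (fun i => by rw [hct']; exact le_rfl) (hP.sm hz0)
  have h6 : pm (vc P) = ((nA (fun i => sp (x i)) : ℚ) : ℝ) ^ 2 * pm (vc (sm z P)) := by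
    conv_lhs => rw [hP']
    exact pm_vc_sm _ _
  have h7 : ((nA (cn P) : ℚ) : ℝ) = ((nA (fun i => sp (x i)) : ℚ) : ℝ) *
      ((nA (cf r) : ℚ) : ℝ) := by
    have e : cn P = fun i => sp (x i) * cf r i := funext hrx
    rw [e, nA_mul (fun i => sp (x i)) (cf r)]
    push_cast
    rfl
  have h8 := hle r hr
  rw [le_div_iff₀ (pow_pos (hnr r) 2)] at h8
  rw [h6, h7, mul_pow]
  have h9 : 0 ≤ ((nA (fun i => sp (x i)) : ℚ) : ℝ) ^ 2 := by positivity
  calc c0 * (((nA (fun i => sp (x i)) : ℚ) : ℝ) ^ 2 * ((nA (cf r) : ℚ) : ℝ) ^ 2) =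
      ((nA (fun i => sp (x i)) : ℚ) : ℝ) ^ 2 * (c0 * ((nA (cf r) : ℚ) : ℝ) ^ 2) := by ring
    _ ≤ _ := mul_le_mul_of_nonneg_left (h8.trans h5) h9

/-- a neighbour as an integral combination -/
theorem nb_gl {p : ℕ} (hp : p.Prime) (o : Option (Fin p)) : ∃ a b c d : ℤ,
    |((a : ℝ) * d - b * c)| = p ∧ a * d - b * c ≠ 0 ∧ ∀ P : Al K × Al K,
    nb p o P = glz a b c d P := by
  have hp0 : (p : ℤ) ≠ 0 := by exact_mod_cast hp.ne_zero
  cases o with
  | none =>
    refine ⟨0, 1, p, 0, by simp, by simpa using hp0, fun P => ?_⟩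
    simp [nb, glz]
  | some r =>
    refine ⟨1, ((r : ℕ) : ℤ), 0, p, by simp, by simpa using hp0, fun P => ?_⟩
    simp [nb, glz]

theorem nb_mem {p : ℕ} (o : Option (Fin p)) (P : Al K × Al K) :
    (p : ℤ) • P.1 ∈ LT (nb p o P) ∧ (p : ℤ) • P.2 ∈ LT (nb p o P) := by
  cases o with
  | none =>
    refine ⟨?_, ?_⟩
    · exact snd_mem_LT (nb p none P)
    · exact (LT (nb p none P)).smul_mem (p : ℤ) (fst_mem_LT (nb p none P))
  | some r =>
    refine ⟨?_, ?_⟩
    · rw [mem_LT]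
      refine ⟨p, -((r : ℕ) : ℤ), ?_⟩
      simp only [nb]
      module
    · exact snd_mem_LT (nb p (some r) P)

theorem zsmul_coord (a : ℤ) (x : Al K) (i : s) : (a • x) i = (a : K i) * x i := by
  rw [Pi.smul_apply, zsmul_eq_mul]

theorem nb_lower {p : ℕ} (o : Option (Fin p)) (P : Al K × Al K) (i : s) :
    sp (p : K i) * cn P i ≤ cn (nb p o P) i := by
  have h := (cn_le (P := sm (fun i => (p : K i)) P) (I := cn (nb p o P))).2 ⟨fun i => ?_,
    fun i => ?_⟩
  · have := h i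
    rw [cn_sm] at this
    exact this
  · have h1 := LT_mem (P := nb p o P) (I := cn (nb p o P)) (fun _ => le_rfl) (nb_mem o P).1 i
    rw [zsmul_coord, Int.cast_natCast] at h1
    exact h1
  · have h1 := LT_mem (P := nb p o P) (I := cn (nb p o P)) (fun _ => le_rfl) (nb_mem o P).2 i
    rw [zsmul_coord, Int.cast_natCast] at h1
    exact h1

theorem nb_upper {p : ℕ} (hp : p.Prime) (o : Option (Fin p)) (P : Al K × Al K) (i : s) :
    cn (nb p o P) i ≤ cn P i := by
  obtain ⟨a, b, c, d, -, -, h⟩ := nb_gl (K := K) hp o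
  rw [h P]
  have hmem : ∀ m n : ℤ, m • P.1 + n • P.2 ∈ LT P := fun m n => mem_LT.2 ⟨m, n, rfl⟩
  exact (cn_le (P := glz a b c d P) (I := cn P)).2
    ⟨fun i => LT_mem (P := P) (I := cn P) (fun _ => le_rfl) (hmem a b) i,
      fun i => LT_mem (P := P) (I := cn P) (fun _ => le_rfl) (hmem c d) i⟩ i

theorem desc (h1 : S_HB K) (h2 : S_NB K) : S_DESC K := by
  classical
  intro hodd hn
  obtain ⟨c0, hc0, hHB⟩ := h1 hodd hn
  have key : ∀ N : ℕ, ∀ P : Al K × Al K, ND P →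
      pm (vc P) < 2 ^ N * (c0 * ((nA (cn P) : ℚ) : ℝ) ^ 2) → ∃ Q : Al K × Al K,
      RD Q ∧ (∃ a b c d : ℚ, a * d - b * c ≠ 0 ∧ Q = glq a b c d P) ∧
      pm (vc Q) * ((nA (cn P) : ℚ) : ℝ) ^ 2 ≤ pm (vc P) * ((nA (cn Q) : ℚ) : ℝ) ^ 2 := by
    intro N
    induction N with
    | zero =>
      intro P hP hlt
      rw [pow_zero, one_mul] at hlt
      exact absurd (hHB P hP) (not_le.2 hlt)
    | succ N ih =>
      intro P hP hlt
      by_cases hred : RD P
      · refine ⟨P, hred, ⟨1, 0, 0, 1, by norm_num, ?_⟩, le_rfl⟩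
        simp [glq]
      · unfold RD at hred
        push Not at hred
        obtain ⟨p, hp, hpP⟩ := hred
        obtain ⟨o, ho⟩ := h2 p hp P (hP.ind (by omega)) hpP
        obtain ⟨a, b, c, d, hdet, hdet0, hnb⟩ := nb_gl (K := K) hp o
        have hct : ∀ i, cn P i ≠ 0 := cn_ne (hP.ne (by omega))
        have hnm : 0 < nA (cn P) := nA_pos hct
        have hdetQ : ((a : ℚ) * d - b * c) ≠ 0 := by exact_mod_cast hdet0
        have hnbq : nb p o P = glq (a : ℚ) b c d P := by rw [hnb, glz_eq]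
        have hNd : ND (nb p o P) := by
          rw [hnbq]
          exact hP.glq hdetQ
        have hpm : pm (vc (nb p o P)) = (p : ℝ) ^ dg K * pm (vc P) := by
          rw [hnbq, pm_vc_glq]
          simp only [Rat.cast_intCast]
          rw [hdet]
        obtain ⟨m, hm, hmn⟩ := exists_powA hp (I := cn P) (J := cn (nb p o P)) hct
          (nb_lower o P) (nb_upper hp o P)
        have hp1 : (1 : ℚ) < p := by exact_mod_cast hp.one_lt
        have hle : dg K ≤ 2 * m := by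
          rw [hmn, mul_pow, ← pow_mul] at ho
          have h1 : (p : ℚ) ^ dg K ≤ (p : ℚ) ^ (m * 2) :=
            le_of_mul_le_mul_right ho (by positivity)
          have := (pow_le_pow_iff_right₀ hp1).1 h1
          omega
        have hle2 : dg K + 1 ≤ 2 * m := by
          obtain ⟨t, ht⟩ := hodd
          omega
        have hp1' : (1 : ℝ) ≤ p := by exact_mod_cast hp.one_lt.le
        have hp2 : (2 : ℝ) ≤ p := by exact_mod_cast hp.two_le
        have hpow : 2 * (p : ℝ) ^ dg K ≤ (p : ℝ) ^ (2 * m) := by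
          calc 2 * (p : ℝ) ^ dg K ≤ (p : ℝ) * (p : ℝ) ^ dg K := by gcongr
            _ = (p : ℝ) ^ (dg K + 1) := by ring
            _ ≤ _ := pow_le_pow_right₀ hp1' hle2
        have hnmR : ((nA (cn (nb p o P)) : ℚ) : ℝ) ^ 2 =
            (p : ℝ) ^ (2 * m) * ((nA (cn P) : ℚ) : ℝ) ^ 2 := by
          rw [hmn]
          push_cast
          ring
        have hnmP : (0 : ℝ) < ((nA (cn P) : ℚ) : ℝ) ^ 2 := by
          have : (0 : ℝ) < ((nA (cn P) : ℚ) : ℝ) := by exact_mod_cast hnm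
          positivity
        have hpn : (0 : ℝ) < (p : ℝ) ^ dg K := by positivity
        obtain ⟨Q, hQ, ⟨a', b', c', d', hdet', hQ'⟩, hfin⟩ := ih (nb p o P) hNd (by
          rw [hpm, hnmR]
          calc (p : ℝ) ^ dg K * pm (vc P) <
              (p : ℝ) ^ dg K * (2 ^ (N + 1) * (c0 * ((nA (cn P) : ℚ) : ℝ) ^ 2)) := by
                gcongr
            _ = 2 ^ N * (c0 * ((2 * (p : ℝ) ^ dg K) * ((nA (cn P) : ℚ) : ℝ) ^ 2)) := by ring
            _ ≤ 2 ^ N * (c0 * ((p : ℝ) ^ (2 * m) * ((nA (cn P) : ℚ) : ℝ) ^ 2)) := by gcongr)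
        refine ⟨Q, hQ, ⟨a' * a + b' * c, a' * b + b' * d, c' * a + d' * c, c' * b + d' * d,
          ?_, ?_⟩, ?_⟩
        · have : (a' * a + b' * c) * (c' * b + d' * d) - (a' * b + b' * d) * (c' * a + d' * c) =
              (a' * d' - b' * c') * ((a : ℚ) * d - b * c) := by ring
          rw [this]
          exact mul_ne_zero hdet' hdetQ
        · rw [hQ', hnbq, glq_glq]
        · rw [hpm, hnmR] at hfin
          have hpm0 := Pool.Agent.Y714.KF.pm_nonneg (vc P)
          have h1 : (p : ℝ) ^ (2 * m) * (pm (vc Q) * ((nA (cn P) : ℚ) : ℝ) ^ 2) ≤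
              (p : ℝ) ^ (2 * m) * (pm (vc P) * ((nA (cn Q) : ℚ) : ℝ) ^ 2) := by
            calc (p : ℝ) ^ (2 * m) * (pm (vc Q) * ((nA (cn P) : ℚ) : ℝ) ^ 2) =
                pm (vc Q) * ((p : ℝ) ^ (2 * m) * ((nA (cn P) : ℚ) : ℝ) ^ 2) := by ring
              _ ≤ (p : ℝ) ^ dg K * pm (vc P) * ((nA (cn Q) : ℚ) : ℝ) ^ 2 := hfin
              _ ≤ (p : ℝ) ^ (2 * m) * pm (vc P) * ((nA (cn Q) : ℚ) : ℝ) ^ 2 := by
                  gcongr
              _ = _ := by ring
          exact le_of_mul_le_mul_left h1 (by positivity)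
  intro P hP
  have hnm : (0 : ℝ) < c0 * ((nA (cn P) : ℚ) : ℝ) ^ 2 := by
    have h1 : 0 < nA (cn P) := nA_pos (cn_ne (hP.ne (by omega)))
    have : (0 : ℝ) < ((nA (cn P) : ℚ) : ℝ) := by exact_mod_cast h1
    positivity
  obtain ⟨N, hN⟩ := pow_unbounded_of_one_lt (pm (vc P) / (c0 * ((nA (cn P) : ℚ) : ℝ) ^ 2))
    (one_lt_two)
  refine key N P hP ?_
  rwa [div_lt_iff₀ hnm] at hN

end Pool.Agent.Y681.KE
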